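import Mathlib
import Pool.Agent.Lib.helper6.Dist

set_option autoImplicit false

open SimpleGraph Finset

namespace Pool.Agent.Results.MP_e3442a_co.Counter

/-- Largest order of an induced subtree. -/
noncomputable def tree {n : ℕ} (G : SimpleGraph (Fin n)) : ℕ :=
  sSup {k | ∃ S : Finset (Fin n), S.card = k ∧ (G.induce (S : Set (Fin n))).IsTree}

noncomputable def ecc {n : ℕ} (G : SimpleGraph (Fin n)) (v : Fin n) : ℕ :=
  univ.sup (fun u => G.dist u v)

noncomputable def lam {n : ℕ} (G : SimpleGraph (Fin n)) (v : Fin n) : ℕ :=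
  (G.induce (G.neighborSet v)).indepNum

def L (v : Fin 25) : ℕ :=
  if v.val < 10 then 0 else if v.val = 10 then 1 else if v.val < 14 then 2
  else if v.val = 14 then 3 else 4

def W : SimpleGraph (Fin 25) where
  Adj u v := u ≠ v ∧ (L u + 1 = L v ∨ L v + 1 = L u ∨ (L u = L v ∧ L u ≠ 2))
  symm := ⟨fun u v h => ⟨h.1.symm, by have := h.2; omega⟩⟩
  loopless := ⟨fun _ h => h.1 rfl⟩

instance : DecidableRel W.Adj := fun u v => by unfold W; infer_instance

def D (u v : Fin 25) : ℕ :=
  if u = v then 0 else if L u = L v then (if L u = 2 then 2 else 1) else (L u - L v) + (L v - L u)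

lemma hD (u v : Fin 25) : W.Reachable u v ∧ W.dist u v = D u v :=
  Pool.Agent.Lib.helper6.dist_eq_of_cert W D (by decide +kernel) (by decide +kernel)
    (by decide +kernel) u v

lemma ecc_sum : ∑ v, ecc W v = 92 := by
  simp only [ecc, (hD _ _).2]
  decide +kernel

lemma lam_ge : 4 ≤ lam W 10 := by
  have h : (W.induce (W.neighborSet 10)).IsIndepSet
      ((({⟨0, by decide⟩, ⟨11, by decide⟩, ⟨12, by decide⟩, ⟨13, by decide⟩} :
        Finset (W.neighborSet 10))) : Set (W.neighborSet 10)) := by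
    intro a ha b hb _
    simp only [coe_insert, coe_singleton, Set.mem_insert_iff, Set.mem_singleton_iff] at ha hb
    rcases ha with rfl | rfl | rfl | rfl <;> rcases hb with rfl | rfl | rfl | rfl <;>
      simp only [comap_adj, Function.Embedding.subtype_apply] <;> decide
  have := h.card_le_indepNum
  refine le_trans (le_of_eq ?_) this
  decide

lemma two_paths {S : Set (Fin 25)} (hT : (W.induce S).IsAcyclic) {a b c d : S}
    (h1 : W.Adj a b) (h2 : W.Adj b c) (h3 : W.Adj a d) (h4 : W.Adj d c) (h5 : a ≠ c) : b = d := by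
  have e1 : (W.induce S).Adj a b := h1
  have e2 : (W.induce S).Adj b c := h2
  have e3 : (W.induce S).Adj a d := h3
  have e4 : (W.induce S).Adj d c := h4
  have := isAcyclic_iff_path_unique.1 hT
    ⟨Walk.cons e1 (Walk.cons e2 Walk.nil), by simp [e1.ne, e2.ne, h5]⟩
    ⟨Walk.cons e3 (Walk.cons e4 Walk.nil), by simp [e3.ne, e4.ne, h5]⟩
  have h6 := congrArg (fun p => p.1.support) this
  simpa using h6

lemma no_tri {S : Set (Fin 25)} (hT : (W.induce S).IsAcyclic) {a b c : S}
    (h1 : W.Adj a b) (h2 : W.Adj b c) (h3 : W.Adj a c) : False := by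
  have e1 : (W.induce S).Adj a b := h1
  have e2 : (W.induce S).Adj b c := h2
  have e3 : (W.induce S).Adj a c := h3
  have := isAcyclic_iff_path_unique.1 hT
    ⟨Walk.cons e1 (Walk.cons e2 Walk.nil), by simp [e1.ne, e2.ne, e3.ne]⟩
    ⟨Walk.cons e3 Walk.nil, by simp [e3.ne]⟩
  have h6 := congrArg (fun p => p.1.length) this
  simp at h6

lemma tree_le (S : Finset (Fin 25)) (hT : (W.induce (S : Set (Fin 25))).IsTree) : S.card ≤ 5 := by
  have cl : ∀ P : Fin 25 → Prop, [DecidablePred P] → (∀ u v, P u → P v → u ≠ v → W.Adj u v) →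
      (S.filter P).card ≤ 2 := by
    intro P _ hP
    by_contra h
    obtain ⟨a, ha, b, hb, c, hc, hab, hac, hbc⟩ := two_lt_card.1 (not_le.1 h)
    rw [mem_filter] at ha hb hc
    exact no_tri hT.isAcyclic (a := ⟨a, ha.1⟩) (b := ⟨b, hb.1⟩) (c := ⟨c, hc.1⟩)
      (hP _ _ ha.2 hb.2 hab) (hP _ _ hb.2 hc.2 hbc) (hP _ _ ha.2 hc.2 hac)
  have hA := cl (fun v => L v ≤ 1) (by decide +kernel)
  have hB := cl (fun v => 3 ≤ L v) (by decide +kernel)
  have hM : (S.filter (fun v => L v = 2)).card ≤ 3 :=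
    le_trans (card_le_card (filter_subset_filter _ (subset_univ S))) (by decide +kernel)
  have hsum : S.card ≤ (S.filter (fun v => L v ≤ 1)).card + (S.filter (fun v => L v = 2)).card +
      (S.filter (fun v => 3 ≤ L v)).card := by
    refine le_trans (card_le_card ?_) ((card_union_le _ _).trans
      (Nat.add_le_add_right (card_union_le _ _) _))
    intro v hv
    simp only [mem_union, mem_filter, hv, true_and]
    omega
  have cut : ∀ k, (∀ v ∈ S, L v ≠ k) → ∀ u ∈ S, ∀ w ∈ S, L u < k → L w < k := by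
    intro k hk u hu w hw h
    obtain ⟨p⟩ := hT.connected.preconnected ⟨u, hu⟩ ⟨w, hw⟩
    have : ∀ (a b : (S : Set (Fin 25))) (_ : (W.induce (S : Set (Fin 25))).Walk a b),
        L a < k → L b < k := by
      intro a b q
      induction q with
      | nil => exact id
      | @cons x y z e _ ih =>
        intro hx
        have h1 : W.Adj x y := e
        have h2 := h1.2
        have h3 := hk y y.2
        exact ih (by omega)
    exact this _ _ p h
  by_contra hc
  obtain ⟨a, ha⟩ := card_pos.1 (show 0 < (S.filter (fun v => L v ≤ 1)).card by omega)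
  obtain ⟨b, hb⟩ := card_pos.1 (show 0 < (S.filter (fun v => 3 ≤ L v)).card by omega)
  obtain ⟨c, hc', d, hd, hcd⟩ := one_lt_card.1
    (show 1 < (S.filter (fun v => L v = 2)).card by omega)
  rw [mem_filter] at ha hb hc' hd
  have h10 : (10 : Fin 25) ∈ S := by
    by_contra h
    have hk : ∀ v ∈ S, L v ≠ 1 := by
      intro v hv h1
      have : ∀ v, L v = 1 → v = 10 := by decide +kernel
      exact h (this v h1 ▸ hv)
    have h0 := hk a ha.1
    have := cut 1 hk a ha.1 b hb.1 (by omega)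
    omega
  have h14 : (14 : Fin 25) ∈ S := by
    by_contra h
    have hk : ∀ v ∈ S, L v ≠ 3 := by
      intro v hv h1
      have : ∀ v, L v = 3 → v = 14 := by decide +kernel
      exact h (this v h1 ▸ hv)
    have := cut 3 hk a ha.1 b hb.1 (by omega)
    omega
  have m : ∀ v, L v = 2 → W.Adj 10 v ∧ W.Adj v 14 := by decide +kernel
  have := two_paths hT.isAcyclic (a := ⟨10, h10⟩) (b := ⟨c, hc'.1⟩) (c := ⟨14, h14⟩)
    (d := ⟨d, hd.1⟩) (m c hc'.2).1 (m c hc'.2).2 (m d hd.2).1 (m d hd.2).2 (by simp)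
  exact hcd (congrArg Subtype.val this)

theorem result : ∃ (n : ℕ) (G : SimpleGraph (Fin n)), 1 ≤ n ∧ G.Connected ∧
    (tree G : ℤ) < ⌈(∑ v, (ecc G v : ℚ)) / n + ((univ.sup (lam G) : ℕ) : ℚ) / 3⌉ := by
  refine ⟨25, W, by norm_num, ⟨fun u v => (hD u v).1⟩, ?_⟩
  have h1 : tree W ≤ 5 := csSup_le' (by rintro _ ⟨S, rfl, hS⟩; exact tree_le S hS)
  have h2 : (∑ v, (ecc W v : ℚ)) = 92 := by exact_mod_cast ecc_sum
  have h3 : 4 ≤ univ.sup (lam W) := lam_ge.trans (le_sup (mem_univ _))
  have h4 : (4 : ℚ) ≤ ((univ.sup (lam W) : ℕ) : ℚ) := by exact_mod_cast h3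
  have h5 : ((tree W : ℕ) : ℚ) ≤ 5 := by exact_mod_cast h1
  rw [Int.lt_ceil, h2]
  push_cast
  linarith

end Pool.Agent.Results.MP_e3442a_co.Counter
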